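import Pool.Agent.K1H73.SQB.Stm

set_option autoImplicit false

namespace Pool.Agent.K1H99.SQB

open Finset Pool.Agent.K1H73.SQB

/-- **Piece MUL.** -/
theorem t_MUL : S_MUL := by
  classical
  intro k T κ S U f hf hU
  have hmap : ∀ G ∈ (bx κ S U).filter (fun G => ∀ i j, i ≠ j → Disjoint (G i) (G j)),
      un G ∈ powersetCard (∑ i, κ i) (Icc 1 T) := by
    intro G hG
    rw [mem_filter] at hG
    obtain ⟨h1, h2⟩ := hG
    unfold bx at h1
    rw [Fintype.mem_piFinset] at h1
    rw [mem_powersetCard]
    constructor
    · intro x hx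
      unfold un at hx
      rw [mem_biUnion] at hx
      obtain ⟨i, -, hi⟩ := hx
      have h3 := (mem_powersetCard.1 (h1 i)).1 hi
      rw [mem_Ioc] at h3
      rw [mem_Icc]
      have := hU i
      omega
    · unfold un
      rw [card_biUnion]
      · exact sum_congr rfl fun i _ => (mem_powersetCard.1 (h1 i)).2
      · intro i _ j _ hij
        exact h2 i j hij
  rw [← sum_fiberwise_of_maps_to hmap, mul_sum]
  refine sum_le_sum fun H hH => ?_
  have hHc := (mem_powersetCard.1 hH).2
  have e1 : ∑ G ∈ ((bx κ S U).filter (fun G => ∀ i j, i ≠ j → Disjoint (G i) (G j))).filter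
      (fun G => un G = H), f (un G) =
      ((((bx κ S U).filter (fun G => ∀ i j, i ≠ j → Disjoint (G i) (G j))).filter
        (fun G => un G = H)).card : ℝ) * f H := by
    rw [sum_congr rfl (g := fun _ => f H), sum_const, nsmul_eq_mul]
    intro G hG
    rw [(mem_filter.1 hG).2]
  refine e1.le.trans (mul_le_mul_of_nonneg_right ?_ (hf H))
  have e2 : (((bx κ S U).filter (fun G => ∀ i j, i ≠ j → Disjoint (G i) (G j))).filter
        (fun G => un G = H)).card ≤ (Fintype.piFinset (fun _ : Fin k => H.powerset)).card := by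
    refine card_le_card fun G hG => ?_
    rw [Fintype.mem_piFinset]
    intro i
    rw [mem_powerset, ← (mem_filter.1 hG).2]
    exact subset_biUnion_of_mem G (mem_univ i)
  have e3 : (Fintype.piFinset (fun _ : Fin k => H.powerset)).card = 2 ^ (k * ∑ i, κ i) := by
    rw [Fintype.card_piFinset, prod_const, card_powerset, hHc, card_univ, Fintype.card_fin,
      ← pow_mul, mul_comm]
  rw [e3] at e2
  exact_mod_cast e2

end Pool.Agent.K1H99.SQB
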